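import Pool.Agent.L7h71.GD.Asm1
import Pool.Agent.L7h71.GC.Asm

set_option autoImplicit false

/-!
# Project GD: assembly of the theorem on universal theories with functions
-/

namespace Pool.Agent.L7h71.GD

open Set Function MeasureTheory FirstOrder FirstOrder.Language
open Pool.Agent.H533R2.VO (RS RIso Dich)
open Pool.Agent.L7h66.UA (XS XIso XYo XDich)
open Pool.Agent.L7h71.UN (IsEU)
open Pool.Agent.L7h71.GB (pt FamG Gd GYo Emb xiso_symm)
open Pool.Agent.L7h71.GC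
open Pool.Agent.W889.FO (VaughtF)
open Pool.Agent.W889.FO.St0 (RF LF gr W D)
open Pool.Agent.R617.VT (ar dc Md md_meas)

section

variable {L : FirstOrder.Language.{0, 0}}
variable {e : (Σ n, (LF L).Relations n) → ℕ} (he : Injective e) {T : L.Theory}
  {T' : (LF L).Theory}
  (hT' : ∀ S : (LF L).Structure ℕ, @Theory.Model (LF L) ℕ S T' ↔ W S ∧ @Theory.Model L ℕ (D S) T)

include hT' in
theorem dich_nfg (hG : S_GBM) (hGD : S_GDC) (hFN : S_FNM) (hY : S_YCM) (hX : S_EXM) (hI : S_ISM)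
    (hM : S_MEC) (hD : S_DEX) (hc : Countable L.Symbols) (hT : ∀ φ ∈ T, IsEU φ)
    (hfin : {φ ∈ T | ¬ φ.IsUniversal}.Finite)
    (hdis : ∀ S : L.Structure ℕ, @Theory.Model L ℕ S T → ¬ FGs S → DisF S) :
    XDich (a := ar e) (K := fun _ => Bool) {y | y ∈ Md he T' ∧ ¬ FGs (D (dc he y))} := by
  classical
  obtain ⟨E, hE⟩ := exists_enum hc
  have hcR : Countable (Σ n, (LF L).Relations n) := Pool.Agent.W889.FO.St0.countable_LF
  have hPB : PolishSpace Bool := by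
    have : TopologicalSpace.IsCompletelyMetrizableSpace Bool := inferInstance
    exact {}
  have hPC : PolishSpace (ℕ → Bool) := inferInstance
  have i5 : ∀ i, BorelSpace ((Fin (ar e i) → ℕ) → Bool) := fun i => inferInstance
  have i7 : BorelSpace (XS (ar e) (fun _ => Bool) ℕ) :=
    inferInstanceAs (BorelSpace (∀ i, (Fin (ar e i) → ℕ) → Bool))
  have i8 : PolishSpace (XS (ar e) (fun _ => Bool) ℕ) :=
    inferInstanceAs (PolishSpace (∀ i, (Fin (ar e i) → ℕ) → Bool))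
  have j5 : ∀ m : ℕ, BorelSpace ((Fin (m + 1) → ℕ) → (ℕ → Bool)) := fun i => inferInstance
  have j6 : ∀ m : ℕ, SecondCountableTopology ((Fin (m + 1) → ℕ) → (ℕ → Bool)) :=
    fun i => inferInstance
  have j7 : BorelSpace (CS ℕ) :=
    inferInstanceAs (BorelSpace (∀ m : ℕ, (Fin (m + 1) → ℕ) → (ℕ → Bool)))
  have j9 : SecondCountableTopology (CS ℕ) :=
    inferInstanceAs (SecondCountableTopology (∀ m : ℕ, (Fin (m + 1) → ℕ) → (ℕ → Bool)))
  obtain ⟨-, hM2, hM3, hM4⟩ := hM L hc E hE e he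
  have hmeas : @MeasurableSet (XS (ar e) (fun _ => Bool) ℕ) _ (Md he T') := md_meas he T'
  let P : Set (XS (ar e) (fun _ => Bool) ℕ × (ℕ → ℕ)) :=
    {z | z.1 ∈ Md he T' ∧ ¬ FGs (D (dc he z.1)) ∧ Pres (D (dc he z.1)) z.2}
  have hP : MeasurableSet P := by
    have h1 : P = (Prod.fst ⁻¹' (Md he T')) ∩
        ((Prod.fst ⁻¹' {y : RS (ar e) | W (dc he y) ∧ FGs (D (dc he y))})ᶜ ∩
          {z : RS (ar e) × (ℕ → ℕ) | W (dc he z.1) ∧ Pres (D (dc he z.1)) z.2}) := by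
      ext z
      constructor
      · rintro ⟨h1, h2, h3⟩
        exact ⟨h1, fun h => h2 h.2, ((hT' _).1 h1.2).1, h3⟩
      · rintro ⟨h1, h2, h3⟩
        exact ⟨h1, fun h => h2 ⟨h3.1, h⟩, h3.2⟩
    rw [h1]
    exact (measurable_fst hmeas).inter ((measurable_fst hM2).compl.inter hM3)
  have hW : ∀ z ∈ P, W (dc he z.1) := fun z hz => ((hT' _).1 hz.1.2).1
  have hmod : ∀ z ∈ P, @Theory.Model L ℕ (D (dc he z.1)) T := fun z hz => ((hT' _).1 hz.1.2).2
  have hds : ∀ z ∈ P, DisF (D (dc he z.1)) := fun z hz => hdis _ (hmod z hz) hz.2.1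
  let B' : Set (CS ℕ) := cd E he '' P
  have hB' : AnalyticSet B' := hP.analyticSet_image hM4
  have hcomp : ∀ z ∈ P, ∀ π : Equiv.Perm ℕ, ((z.1, z.2 ∘ π) : RS (ar e) × (ℕ → ℕ)) ∈ P :=
    fun z hz π => ⟨hz.1, hz.2.1, hz.2.2.comp π⟩
  have hiso' : ∀ M ∈ B', ∀ N, XIso M N → N ∈ B' := by
    rintro _ ⟨z, hz, rfl⟩ N ⟨π, hπ⟩
    refine ⟨(z.1, z.2 ∘ π.symm), hcomp z hz π.symm, ?_⟩
    rw [cd_eq E he _ (hW _ (hcomp z hz π.symm))]
    funext m x
    have h1 := hπ m (π.symm ∘ x)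
    have h2 : (⇑π ∘ ⇑π.symm ∘ x) = x := by
      funext j
      simp
    rw [h2, cd_eq E he z (hW z hz)] at h1
    rw [h1, cod_comp]
  have key := hG (fun m => m + 1) (fun _ => ℕ → Bool) (GG E) (hGD L hc E hE).1 B' hB' hiso'
    (by
      rintro _ ⟨z, hz, rfl⟩
      rw [cd_eq E he z (hW z hz)]
      exact hFN L hc E hE _ _ (hds z hz) hz.2.2)
    (by
      rintro _ ⟨z, hz, rfl⟩
      rw [cd_eq E he z (hW z hz)]
      obtain ⟨F, hF⟩ := hY L hc E hE T hT hfin _ _ (hmod z hz) (hds z hz) hz.2.2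
      refine ⟨F, fun N hN => ?_⟩
      obtain ⟨S₁, ρ₁, h1, h2, h3, h4⟩ := hF N hN
      obtain ⟨y, hy1, hy2, rfl⟩ := hD L e he S₁
      refine ⟨(y, ρ₁), ⟨⟨hy1, (hT' _).2 ⟨hy2, h1⟩⟩, h2, h3⟩, ?_⟩
      rw [cd_eq E he _ hy2]
      exact h4)
  rcases key with ⟨C, hCc, hC'⟩ | ⟨g, hg, hgB, hgi⟩
  · left
    let Φ : CS ℕ → XS (ar e) (fun _ => Bool) ℕ := fun N =>
      if h : N ∈ B' then h.choose.1 else fun _ _ => false
    refine ⟨Φ '' C, hCc.image _, fun y hy => ?_⟩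
    obtain ⟨hy1, hy2⟩ := hy
    have hym := ((hT' _).1 hy1.2).2
    have hyW := ((hT' _).1 hy1.2).1
    have hyd := hdis _ hym hy2
    obtain ⟨ρ, hρ⟩ := hX L _ hyd hy2
    have hyP : ((y, ρ) : RS (ar e) × (ℕ → ℕ)) ∈ P := ⟨hy1, hy2, hρ⟩
    obtain ⟨N, hN, hNi⟩ := hC' (cd E he (y, ρ)) ⟨(y, ρ), hyP, rfl⟩
    have hNB : N ∈ B' := hiso' _ ⟨(y, ρ), hyP, rfl⟩ N (xiso_symm hNi)
    refine ⟨Φ N, mem_image_of_mem _ hN, ?_⟩
    have h1 : Φ N = hNB.choose.1 := dif_pos hNB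
    obtain ⟨h2, h3⟩ := hNB.choose_spec
    rw [h1]
    obtain ⟨π, hπ⟩ := hNi
    refine xiso_of he hT' h2.1 hy1 ?_
    refine (hI L E hE _ _ _ (ρ ∘ π) h2.2.2 (hρ.comp π)).2 (hds _ h2) hyd ?_
    rw [← cd_eq E he _ (hW _ h2), h3]
    funext m x
    rw [← hπ m x, cd_eq E he _ hyW]
    rfl
  · right
    let S : Set ((ℕ → Bool) × XS (ar e) (fun _ => Bool) ℕ × (ℕ → ℕ)) :=
      {z | z.2 ∈ P ∧ cd E he z.2 = g z.1}
    have hgm : Measurable g := hg.measurable
    have hS : MeasurableSet S := by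
      have h1 : MeasurableSet {z : (ℕ → Bool) × XS (ar e) (fun _ => Bool) ℕ × (ℕ → ℕ) |
          z.2 ∈ P} := measurable_snd hP
      have h2 : Measurable (fun z : (ℕ → Bool) × XS (ar e) (fun _ => Bool) ℕ × (ℕ → ℕ) =>
          cd E he z.2) := hM4.comp measurable_snd
      have h3 : {z : (ℕ → Bool) × XS (ar e) (fun _ => Bool) ℕ × (ℕ → ℕ) |
          cd E he z.2 = g z.1} =
          ⋂ (m : ℕ), ⋂ (i : Fin (m + 1) → ℕ), {z | cd E he z.2 m i = g z.1 m i} := by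
        ext z
        simp only [mem_iInter, mem_ofPred_eq]
        exact ⟨fun h m i => by rw [h], fun h => funext fun m => funext fun i => h m i⟩
      refine h1.inter ?_
      change MeasurableSet {z : (ℕ → Bool) × XS (ar e) (fun _ => Bool) ℕ × (ℕ → ℕ) |
        cd E he z.2 = g z.1}
      rw [h3]
      refine MeasurableSet.iInter fun m => MeasurableSet.iInter fun i => ?_
      refine measurableSet_eq_fun ?_ ?_
      · exact (measurable_pi_apply i).comp ((measurable_pi_apply m).comp h2)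
      · exact (measurable_pi_apply i).comp ((measurable_pi_apply m).comp
          (hgm.comp measurable_fst))
    have hSb : StandardBorelSpace S := hS.standardBorel
    have hex : ∀ c, ∃ z : S, z.1.1 = c := by
      intro c
      obtain ⟨z, h1, h2⟩ := hgB c
      exact ⟨⟨(c, z), h1, h2⟩, rfl⟩
    obtain ⟨h, hh1, hh2⟩ := Pool.Agent.H565R2.FO2.perfect_of_uncountable (Y := S)
      (X := XS (ar e) (fun _ => Bool) ℕ) (Z := ℕ → Bool) (ι := Unit) (fun z => z.1.2.1)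
      (measurable_fst.comp (measurable_snd.comp measurable_subtype_coe))
      (fun _ z => z.1.1) (fun _ => measurable_fst.comp measurable_subtype_coe)
      (fun z z' => XIso z.1.2.1 z'.1.2.1) (by
        intro z z' hzz _
        refine ⟨(), hgi _ _ ?_⟩
        rw [← z.2.2, ← z'.2.2, cd_eq E he _ (hW _ z.2.1), cd_eq E he _ (hW _ z'.2.1)]
        exact (hI L E hE _ _ _ _ z.2.1.2.2 z'.2.1.2.2).1
          (of_xiso he hT' z.2.1.1 z'.2.1.1 hzz)) (by
        intro hcn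
        have hc' : (univ : Set (ℕ → Bool)).Countable := by
          refine hcn.mono fun c _ => ?_
          obtain ⟨z, hz⟩ := hex c
          exact mem_iUnion.2 ⟨(), z, hz⟩
        have h3 : Countable (ℕ → Bool) := countable_univ_iff.1 hc'
        obtain ⟨s, hs⟩ := exists_surjective_nat (ℕ → Bool)
        obtain ⟨n, hn⟩ := hs fun k => !(s k k)
        have h5 := congrFun hn n
        revert h5
        cases s n n <;> simp)
    refine ⟨fun c => (h c).1.2.1, hh1, fun c => ⟨(h c).2.1.1, (h c).2.1.2.1⟩, fun c d hcd => ?_⟩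
    by_contra hne
    exact hh2 c d hne hcd

end

theorem s_GCM (hG : S_GBM) (hGD : S_GDC) (hFN : S_FNM) (hY : S_YCM) (hX : S_EXM) (hI : S_ISM)
    (hM : S_MEC) (hD : S_DEX) (hF : S_FIN) : S_GCM := by
  classical
  intro L hc T hT hfin hdis
  obtain ⟨T', hT'⟩ := Pool.Agent.W889.FO.St0.ax_theory T
  refine Pool.Agent.L7h47.UC.red T T' hT' ?_
  have hcR : Countable (Σ n, (LF L).Relations n) := Pool.Agent.W889.FO.St0.countable_LF
  obtain ⟨e, he⟩ := Countable.exists_injective_nat (Σ n, (LF L).Relations n)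
  refine Pool.Agent.R617.VT.vaught_of he (Pool.Agent.L7h71.GB.dich_of ?_)
  rcases hF L hc e he T T' hT' with ⟨C, hC, hC'⟩ | ⟨g, h1, h2, h3⟩
  · rcases dich_nfg he hT' hG hGD hFN hY hX hI hM hD hc hT hfin hdis with
      ⟨C₂, hC₂, hC₂'⟩ | ⟨g, h1, h2, h3⟩
    · left
      refine ⟨C ∪ C₂, hC.union hC₂, fun y hy => ?_⟩
      by_cases h : FGs (D (dc he y))
      · obtain ⟨N, hN, hN'⟩ := hC' y ⟨hy, h⟩
        exact ⟨N, Or.inl hN, hN'⟩
      · obtain ⟨N, hN, hN'⟩ := hC₂' y ⟨hy, h⟩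
        exact ⟨N, Or.inr hN, hN'⟩
    · exact Or.inr ⟨g, h1, fun c => (h2 c).1, h3⟩
  · exact Or.inr ⟨g, h1, fun c => (h2 c).1, h3⟩


end Pool.Agent.L7h71.GD
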