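import Pool.Agent.L7h71.GD.Sig
import Pool.Agent.L7h71.GB.Fog

set_option autoImplicit false

/-!
# Project GD: first-order theories
-/

namespace Pool.Agent.L7h71.GD

open Set Function MeasureTheory FirstOrder FirstOrder.Language
open Pool.Agent.H533R2.VO (RS RIso Dich)
open Pool.Agent.L7h66.UA (XS XIso XYo XDich)
open Pool.Agent.L7h71.UN (IsEU)
open Pool.Agent.L7h71.GB (FamG Gd GYo Emb Pr IsUE SubM S_FOE S_FOM dich_of gr_emb rel_emb)
open Pool.Agent.W889.FO (VaughtF)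
open Pool.Agent.W889.FO.St0 (RF LF gr W D fun_iff)
open Pool.Agent.R617.VT

/-- FOH: Vaught's conjecture for theories with tame finite submodels. -/
def S_FOH : Prop :=
  ∀ (L : FirstOrder.Language.{0, 0}), Countable L.Symbols → ∀ (T₁ T₂ : L.Theory),
    (∀ φ ∈ T₁, IsUE φ) → (∀ φ ∈ T₂, IsEU φ) → T₂.Finite →
    (∀ S : L.Structure ℕ, @Theory.Model L ℕ S (T₁ ∪ T₂) → TameP (SubM T₁ S)) →
    VaughtF L (T₁ ∪ T₂)

theorem s_FOH (hG : S_GBM) (hE : S_FOE) (hM : S_FOM) : S_FOH := by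
  classical
  intro L hc T₁ T₂ h1 h2 hfin hloc
  obtain ⟨T', hT'⟩ := Pool.Agent.W889.FO.St0.ax_theory (T₁ ∪ T₂)
  refine Pool.Agent.L7h47.UC.red (T₁ ∪ T₂) T' hT' ?_
  have hcR : Countable (Σ n, (LF L).Relations n) := Pool.Agent.W889.FO.St0.countable_LF
  obtain ⟨e, he⟩ := Countable.exists_injective_nat (Σ n, (LF L).Relations n)
  obtain ⟨𝓖, h𝓖, hGd⟩ := hM L hc T₁ e he
  refine vaught_of he (dich_of ?_)
  have hPB : PolishSpace Bool := by
    have : TopologicalSpace.IsCompletelyMetrizableSpace Bool := inferInstance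
    exact {}
  have i5 : ∀ i, BorelSpace ((Fin (ar e i) → ℕ) → Bool) := fun i => inferInstance
  have i7 : BorelSpace (XS (ar e) (fun _ => Bool) ℕ) :=
    inferInstanceAs (BorelSpace (∀ i, (Fin (ar e i) → ℕ) → Bool))
  have i8 : PolishSpace (XS (ar e) (fun _ => Bool) ℕ) :=
    inferInstanceAs (PolishSpace (∀ i, (Fin (ar e i) → ℕ) → Bool))
  have hmeas : @MeasurableSet (XS (ar e) (fun _ => Bool) ℕ) _ (Md he T') := md_meas he T'
  refine hG (ar e) (fun _ => Bool) 𝓖 h𝓖 (Md he T') hmeas.analyticSet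
    (fun x hx y h => md_iso he h hx) ?_ ?_
  · rintro y ⟨-, hy⟩
    obtain ⟨hW, hD⟩ := (hT' _).1 hy
    have hl := hloc _ hD
    have h3 := (hGd y).1 hW
    refine FineM.of ?_
    have h4 : Gd 𝓖 y = SubM T₁ (D (dc he y)) := funext fun b => propext (h3 b)
    rw [h4]
    exact hl
  · rintro y ⟨hy1, hy⟩
    obtain ⟨hW, hD⟩ := (hT' _).1 hy
    obtain ⟨F, hF⟩ := hE L T₁ T₂ h1 h2 hfin (D (dc he y)) hD
    refine ⟨F, fun N hN => ?_⟩
    have hWN : W (dc he N) := by
      constructor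
      · rintro ⟨n, f⟩ v
        obtain ⟨X', h3, -, h4, -⟩ := hN (Finset.univ.image v)
        obtain ⟨p, -, hp⟩ := (hGd N).2 X' h4 n f v fun j =>
          h3 (Finset.mem_image_of_mem _ (Finset.mem_univ j))
        exact ⟨p, hp⟩
      · rintro ⟨n, f⟩ v b b' hb hb'
        obtain ⟨X', h3, -, h4, ε, -, h5⟩ := hN (Finset.univ.image v ∪ {b, b'})
        have hv : ∀ j, v j ∈ (X' : Set ℕ) := fun j => Finset.mem_coe.2 (h3 (Finset.mem_union_left _
          (Finset.mem_image_of_mem _ (Finset.mem_univ j))))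
        have hbX : b ∈ (X' : Set ℕ) := Finset.mem_coe.2 (h3 (Finset.mem_union_right _ (by simp)))
        have hbX' : b' ∈ (X' : Set ℕ) := Finset.mem_coe.2 (h3 (Finset.mem_union_right _ (by simp)))
        exact h5.1 hbX hbX' (hW.un ⟨n, f⟩ _ _ _ ((gr_emb he h5 f v hv b hbX).2 hb)
          ((gr_emb he h5 f v hv b' hbX').2 hb'))
    refine ⟨fun i hi v => ?_, (hT' _).2 ⟨hWN, hF (D (dc he N)) fun X => ?_⟩⟩
    · obtain ⟨X', h3, -, -, ε, -, h5⟩ := hN (Finset.univ.image v)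
      rw [← h5.2 i v fun j => Finset.mem_coe.2 (h3 (Finset.mem_image_of_mem _ (Finset.mem_univ j)))]
      exact hy1 i hi _
    · obtain ⟨X', h3, h3', h4, ε, h6, h5⟩ := hN X
      refine ⟨X', h3, h3', ((hGd N).1 hWN X').1 h4, ε, h6, h5.1, fun n f v hv => ?_,
        fun n R v hv => ?_⟩
      · obtain ⟨p, hp, hp'⟩ := (hGd N).2 X' h4 n f v hv
        have h7 : @Structure.funMap L ℕ (D (dc he N)) n f v = p := (fun_iff hWN f v p).2 hp'
        rw [h7]
        exact ((fun_iff hW f _ _).2 ((gr_emb he h5 f v hv p (Finset.mem_coe.2 hp)).2 hp')).symm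
      · exact rel_emb he h5 (RF.rel R) v hv


end Pool.Agent.L7h71.GD
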