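import Pool.Agent.L7h71.GD.Sig
import Pool.Agent.L7h71.UN.Fs

set_option autoImplicit false

/-!
# Project GD: isomorphism-invariant relatively `F_σ` subclasses of the class of models of a `Π₂` sentence
-/

namespace Pool.Agent.L7h71.GD

open Set Filter Function MeasureTheory
open Pool.Agent.L7h66.UA (XS XIso XYo XDich)
open Pool.Agent.L7h71.UN (perm_of_injOn)
open Pool.Agent.L7h71.GB (FamG Gd GYo Emb Pr Mat Sub qtf FamM append_comp' qtf_eq gd_iff
  analytic_inter)
open Pool.Agent.L7h71.UA (QT qt continuous_qt qt_of append_comp)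

variable {a : ℕ → ℕ} {K : ℕ → Type}

/-- If all copies of `M` are in the `F_σ` set then for some finite `F` all `N` younger than `M` over `F` have a copy in
the `F_σ` set. -/
theorem fsigma_loc [∀ i, TopologicalSpace (K i)] (C : ℕ → Set (XS a K ℕ))
    (hC : ∀ n, IsClosed (C n)) (M : XS a K ℕ) (hiso : ∀ N, XIso M N → N ∈ ⋃ n, C n) :
    ∃ F : Finset ℕ, ∀ N, XYo F M N → ∃ N', XIso N' N ∧ N' ∈ ⋃ n, C n := by
  classical
  let P : Set ((ℕ → ℕ) × (ℕ → ℕ)) := {p | (∀ n, p.1 (p.2 n) = n) ∧ ∀ n, p.2 (p.1 n) = n}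
  have hP : IsClosed P := by
    have key : ∀ n : ℕ, Continuous fun p : (ℕ → ℕ) × (ℕ → ℕ) => p.1 (p.2 n) := by
      intro n
      have h1 : Continuous fun q : (ℕ → ℕ) × ℕ => q.1 q.2 :=
        continuous_prod_of_discrete_right.2 fun m => continuous_apply m
      exact h1.comp (continuous_fst.prodMk ((continuous_apply n).comp continuous_snd))
    have key' : ∀ n : ℕ, Continuous fun p : (ℕ → ℕ) × (ℕ → ℕ) => p.2 (p.1 n) := fun n =>
      (key n).comp continuous_swap
    have h1 : P = (⋂ n, {p | p.1 (p.2 n) = n}) ∩ ⋂ n, {p | p.2 (p.1 n) = n} := by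
      ext p
      simp only [mem_inter_iff, mem_iInter]
      exact Iff.rfl
    rw [h1]
    exact (isClosed_iInter fun n => isClosed_eq (key n) continuous_const).inter
      (isClosed_iInter fun n => isClosed_eq (key' n) continuous_const)
  have : PolishSpace P := hP.polishSpace
  have hne : Nonempty P := ⟨⟨(id, id), fun _ => rfl, fun _ => rfl⟩⟩
  let tr : P → XS a K ℕ := fun p i v => M i (p.1.1 ∘ v)
  have htr : Continuous tr := by
    refine continuous_pi fun i => continuous_pi fun v => ?_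
    have h1 : Continuous fun p : P => (p.1.1 ∘ v : Fin (a i) → ℕ) :=
      continuous_pi fun j => (continuous_apply (v j)).comp (continuous_fst.comp continuous_subtype_val)
    exact (continuous_of_discreteTopology (f := M i)).comp h1
  have hcov : ⋃ n, tr ⁻¹' C n = univ := by
    rw [← preimage_iUnion, eq_univ_iff_forall]
    intro p
    refine hiso _ ⟨⟨p.1.2, p.1.1, p.2.1, p.2.2⟩, fun i x => ?_⟩
    show M i (p.1.1 ∘ (p.1.2 ∘ x)) = M i x
    congr 1
    funext j
    exact p.2.1 (x j)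
  obtain ⟨n, p₀, hp₀⟩ := nonempty_interior_of_iUnion_of_closed
    (fun n => (hC n).preimage htr) hcov
  obtain ⟨U, hU, hUeq⟩ := isOpen_induced_iff.1 (isOpen_interior (s := tr ⁻¹' C n))
  have hU0 : p₀.1 ∈ U := by
    have : p₀ ∈ Subtype.val ⁻¹' U := by rw [hUeq]; exact hp₀
    exact this
  obtain ⟨U₁, U₂, hU₁, hU₂, h1, h2, h12⟩ := isOpen_prod_iff.1 hU p₀.1.1 p₀.1.2 hU0
  obtain ⟨I₁, u₁, hu₁, hI₁⟩ := isOpen_pi_iff.1 hU₁ _ h1
  obtain ⟨I₂, u₂, hu₂, hI₂⟩ := isOpen_pi_iff.1 hU₂ _ h2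
  -- the finite condition
  have hcond : ∀ p : P, (∀ z ∈ I₁ ∪ I₂.image p₀.1.2, p.1.1 z = p₀.1.1 z) → tr p ∈ C n := by
    intro p hp
    have h3 : p ∈ interior (tr ⁻¹' C n) := by
      rw [← hUeq]
      refine h12 ⟨hI₁ fun z hz => ?_, hI₂ fun z hz => ?_⟩
      · show p.1.1 z ∈ u₁ z
        rw [hp z (Finset.mem_union_left _ hz)]
        exact (hu₁ z hz).2
      · show p.1.2 z ∈ u₂ z
        have h4 := hp (p₀.1.2 z) (Finset.mem_union_right _ (Finset.mem_image_of_mem _ hz))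
        rw [p₀.2.1 z] at h4
        have h5 := p.2.2 (p₀.1.2 z)
        rw [h4] at h5
        rw [h5]
        exact (hu₂ z hz).2
    have h6 : p ∈ tr ⁻¹' C n := interior_subset h3
    exact h6
  refine ⟨(I₁ ∪ I₂.image p₀.1.2).image p₀.1.1, fun N hN => ?_⟩
  have h0 : (fun i (x : Fin (a i) → ℕ) => N i (p₀.1.1 ∘ x)) ∈ C n := by
    rw [← (hC n).closure_eq, mem_closure_iff]
    intro O hO hON
    obtain ⟨J, w, hw, hJ⟩ := isOpen_pi_iff.1 hO _ hON
    have hex : ∀ i ∈ J, ∃ (J' : Finset (Fin (a i) → ℕ)), ∀ f : (Fin (a i) → ℕ) → K i,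
        (∀ x ∈ J', f x = N i (p₀.1.1 ∘ x)) → f ∈ w i := by
      intro i hi
      obtain ⟨J', w', hw', hJ'⟩ := isOpen_pi_iff.1 (hw i hi).1 _ (hw i hi).2
      refine ⟨J', fun f hf => hJ' fun x hx => ?_⟩
      rw [hf x hx]
      exact (hw' x hx).2
    choose! J' hJ' using hex
    let X : Finset ℕ := J.biUnion fun i => (J' i).biUnion fun x => Finset.univ.image x
    let Z : Finset ℕ := I₁ ∪ I₂.image p₀.1.2
    obtain ⟨e, e1, e2, e4⟩ := hN ((X ∪ Z).image p₀.1.1)
    have hinj : InjOn (e ∘ p₀.1.1) ↑(X ∪ Z) := by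
      intro a ha b hb hab
      have h3 := e1 (Finset.mem_coe.2 (Finset.mem_image_of_mem _ ha))
        (Finset.mem_coe.2 (Finset.mem_image_of_mem _ hb)) hab
      have h4 := congrArg p₀.1.2 h3
      rwa [p₀.2.2, p₀.2.2] at h4
    obtain ⟨g, hg⟩ := perm_of_injOn (e ∘ p₀.1.1) (X ∪ Z) hinj
    let p : P := ⟨(g, g.symm), fun m => g.apply_symm_apply m, fun m => g.symm_apply_apply m⟩
    refine ⟨tr p, hJ fun i hi => hJ' i hi _ fun x hx => ?_, hcond p fun z hz => ?_⟩
    · have hxX : ∀ j, x j ∈ X := fun j =>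
        Finset.mem_biUnion.2 ⟨i, hi, Finset.mem_biUnion.2
          ⟨x, hx, Finset.mem_image_of_mem _ (Finset.mem_univ j)⟩⟩
      show M i (g ∘ x) = _
      have h4 : (g : ℕ → ℕ) ∘ x = e ∘ (p₀.1.1 ∘ x) := by
        funext j
        exact hg _ (Finset.mem_union_left _ (hxX j))
      rw [h4]
      exact e4 i _ fun j => Finset.mem_image_of_mem _ (Finset.mem_union_left _ (hxX j))
    · show g z = p₀.1.1 z
      rw [hg z (Finset.mem_union_right _ hz)]
      exact e2 _ (Finset.mem_image_of_mem _ hz)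
  exact ⟨_, ⟨⟨p₀.1.1, p₀.1.2, p₀.2.2, p₀.2.1⟩, fun i x => rfl⟩, mem_iUnion.2 ⟨n, h0⟩⟩


/-- The dichotomy for invariant classes of models of a `Π₂` sentence which are closed under younger models over
finite sets. -/
theorem pi_gen (hG : S_GBM) (a : ℕ → ℕ) (K : ℕ → Type) [∀ i, TopologicalSpace (K i)]
    [∀ i, PolishSpace (K i)] (p : ℕ → ℕ) (q : ℕ → ℕ → ℕ) (Ψ : Mat a K p q)
    (hΨ : ∀ i j, @MeasurableSet _ (borel (QT a K (p i + q i j))) (Ψ i j))
    (B : Set (XS a K ℕ)) (hB : AnalyticSet B) (hiso : ∀ M ∈ B, ∀ N, XIso M N → N ∈ B)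
    (hfine : ∀ M ∈ B, TameP fun b : Finset ℕ => Sub p q Ψ M b)
    (hloc : ∀ M ∈ B, ∃ F : Finset ℕ, ∀ N, Sub p q Ψ N univ → XYo F M N → N ∈ B) : XDich B := by
  classical
  let _ : ∀ i, MeasurableSpace (K i) := fun i => borel (K i)
  have hb : ∀ i, BorelSpace (K i) := fun i => ⟨rfl⟩
  have hm2 : ∀ (n m : ℕ) (x : Fin m → Fin n),
      @Measurable _ _ _ (borel (QT a K m)) fun s : (∀ i, (Fin (a i) → Fin n) → K i) => qtf s x := by
    intro n m x
    let _ : MeasurableSpace (QT a K m) := borel _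
    have : BorelSpace (QT a K m) := ⟨rfl⟩
    have h5 : ∀ i, BorelSpace ((Fin (a i) → Fin n) → K i) := fun i => inferInstance
    have h6 : ∀ i, SecondCountableTopology ((Fin (a i) → Fin n) → K i) := fun i => inferInstance
    have h7 : BorelSpace (∀ i, (Fin (a i) → Fin n) → K i) := inferInstance
    have hc : Continuous fun s : (∀ i, (Fin (a i) → Fin n) → K i) => qtf s x :=
      (continuous_pi fun i => continuous_pi fun t => (continuous_apply (x ∘ t)).comp
        (continuous_apply i)).prodMk continuous_const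
    exact hc.measurable
  have h𝓖 : ∀ n, MeasurableSet (FamM p q Ψ n) := by
    intro n
    have h1 : FamM p q Ψ n = ⋂ (i : ℕ), ⋂ (x : Fin (p i) → Fin n), ⋃ (j : ℕ),
        ⋃ (y : Fin (q i j) → Fin n), (fun s => qtf s (Fin.append x y)) ⁻¹' Ψ i j := by
      ext s
      simp only [mem_iInter, mem_iUnion, mem_preimage]
      exact Iff.rfl
    rw [h1]
    refine MeasurableSet.iInter fun i => MeasurableSet.iInter fun x => MeasurableSet.iUnion fun j =>
      MeasurableSet.iUnion fun y => ?_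
    exact @hm2 n _ (Fin.append x y) _ (hΨ i j)
  refine hG a K (FamM p q Ψ) h𝓖 B hB hiso (fun M hM => ?_) fun M hM => ?_
  · refine FineM.of ?_
    have h1 : (fun b : Finset ℕ => Gd (FamM p q Ψ) M b) = fun b : Finset ℕ => Sub p q Ψ M b :=
      funext fun b => propext (gd_iff p q Ψ M b)
    show TameP (fun b : Finset ℕ => Gd (FamM p q Ψ) M b)
    rw [h1]
    exact hfine M hM
  · obtain ⟨F, hF⟩ := hloc M hM
    refine ⟨F, fun N hN => hF N (fun i' x _ => ?_) fun X => ?_⟩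
    · obtain ⟨X', h1, -, h3, -⟩ := hN (Finset.univ.image x)
      obtain ⟨j, y, -, hy⟩ := (gd_iff p q Ψ N _).1 h3 i' x fun c =>
        Finset.mem_coe.2 (h1 (Finset.mem_image_of_mem _ (Finset.mem_univ c)))
      exact ⟨j, y, fun c => mem_univ _, hy⟩
    · obtain ⟨X', h1, -, -, e, h3, h4⟩ := hN X
      exact ⟨e, h4.1.mono (Finset.coe_subset.2 h1), h3, fun i x hx => h4.2 i x fun j =>
        Finset.mem_coe.2 (h1 (hx j))⟩

theorem sub_iso {p : ℕ → ℕ} {q : ℕ → ℕ → ℕ} {Ψ : Mat a K p q} {M N : XS a K ℕ} (h : XIso M N)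
    (hM : Sub p q Ψ M univ) : Sub p q Ψ N univ := by
  obtain ⟨e, he⟩ := h
  have key : ∀ {m : ℕ} (x : Fin m → ℕ), qt N (e ∘ x) = qt M x := fun x =>
    qt_of e.injective.injOn fun i' x _ => he i' x
  intro i x _
  obtain ⟨j, y, -, hy⟩ := hM i (e.symm ∘ x) fun c => mem_univ _
  refine ⟨j, e ∘ y, fun c => mem_univ _, ?_⟩
  rw [← key, append_comp'] at hy
  have h2 : (⇑e ∘ ⇑e.symm ∘ x) = x := by
    funext c
    exact e.apply_symm_apply _
  rwa [h2] at hy

/-- The dichotomy for invariant relatively `F_σ` classes of models of a `Π₂` sentence. -/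
theorem pi_fsigma (hG : S_GBM) (a : ℕ → ℕ) (K : ℕ → Type) [∀ i, TopologicalSpace (K i)]
    [∀ i, PolishSpace (K i)] (p : ℕ → ℕ) (q : ℕ → ℕ → ℕ) (Ψ : Mat a K p q)
    (hΨ : ∀ i j, @MeasurableSet _ (borel (QT a K (p i + q i j))) (Ψ i j))
    (C : ℕ → Set (XS a K ℕ)) (hC : ∀ n, IsClosed (C n))
    (hiso : ∀ M ∈ {M : XS a K ℕ | Sub p q Ψ M univ} ∩ ⋃ n, C n, ∀ N, XIso M N → N ∈ ⋃ n, C n)
    (hfine : ∀ M ∈ {M : XS a K ℕ | Sub p q Ψ M univ} ∩ ⋃ n, C n,
      TameP fun b : Finset ℕ => Sub p q Ψ M b) :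
    XDich ({M : XS a K ℕ | Sub p q Ψ M univ} ∩ ⋃ n, C n) := by
  classical
  let _ : ∀ i, MeasurableSpace (K i) := fun i => borel (K i)
  have hb : ∀ i, BorelSpace (K i) := fun i => ⟨rfl⟩
  have i5 : ∀ i, BorelSpace ((Fin (a i) → ℕ) → K i) := fun i => inferInstance
  have i6 : ∀ i, SecondCountableTopology ((Fin (a i) → ℕ) → K i) := fun i => inferInstance
  have i7 : BorelSpace (XS a K ℕ) := inferInstanceAs (BorelSpace (∀ i, (Fin (a i) → ℕ) → K i))
  have i4 : ∀ i, TopologicalSpace.IsCompletelyMetrizableSpace ((Fin (a i) → ℕ) → K i) :=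
    fun i => inferInstance
  have i8 : TopologicalSpace.IsCompletelyMetrizableSpace (XS a K ℕ) :=
    inferInstanceAs (TopologicalSpace.IsCompletelyMetrizableSpace (∀ i, (Fin (a i) → ℕ) → K i))
  have i9 : SecondCountableTopology (XS a K ℕ) :=
    inferInstanceAs (SecondCountableTopology (∀ i, (Fin (a i) → ℕ) → K i))
  have i10 : PolishSpace (XS a K ℕ) := {}
  have hm1 : ∀ (m : ℕ) (x : Fin m → ℕ),
      @Measurable _ _ _ (borel (QT a K m)) fun M : XS a K ℕ => qt M x := by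
    intro m x
    let _ : MeasurableSpace (QT a K m) := borel _
    have : BorelSpace (QT a K m) := ⟨rfl⟩
    exact (continuous_qt x).measurable
  have h2 : MeasurableSet {M : XS a K ℕ | Sub p q Ψ M univ} := by
    have h3 : {M : XS a K ℕ | Sub p q Ψ M univ} = ⋂ (i : ℕ), ⋂ (x : Fin (p i) → ℕ), ⋃ (j : ℕ),
        ⋃ (y : Fin (q i j) → ℕ), (fun M => qt M (Fin.append x y)) ⁻¹' Ψ i j := by
      ext M
      simp only [mem_iInter, mem_iUnion, mem_preimage]
      constructor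
      · intro h i x
        obtain ⟨j, y, -, hy⟩ := h i x fun c => mem_univ _
        exact ⟨j, y, hy⟩
      · intro h i x _
        obtain ⟨j, y, hy⟩ := h i x
        exact ⟨j, y, fun c => mem_univ _, hy⟩
    rw [h3]
    refine MeasurableSet.iInter fun i => MeasurableSet.iInter fun x => MeasurableSet.iUnion
      fun j => MeasurableSet.iUnion fun y => ?_
    exact @hm1 _ (Fin.append x y) _ (hΨ i j)
  have h4 : MeasurableSet ({M : XS a K ℕ | Sub p q Ψ M univ} ∩ ⋃ n, C n) :=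
    h2.inter (MeasurableSet.iUnion fun n => (hC n).measurableSet)
  refine pi_gen hG a K p q Ψ hΨ _ h4.analyticSet
    (fun M hM N hN => ⟨sub_iso hN hM.1, hiso M hM N hN⟩) hfine fun M hM => ?_
  obtain ⟨F, hF⟩ := fsigma_loc C hC M (hiso M hM)
  refine ⟨F, fun N hN hN' => ?_⟩
  obtain ⟨N', h5, h6⟩ := hF N hN'
  exact ⟨hN, hiso N' ⟨sub_iso (Pool.Agent.L7h71.GB.xiso_symm h5) hN, h6⟩ N h5⟩

end Pool.Agent.L7h71.GD
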