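import Pool.Agent.L7h71.GD.Asm1
import Pool.Agent.L7h71.GB.Sig2

set_option autoImplicit false

/-!
# Project GD: conjunctions of a `Π₂` sentence and a `Σ₂` sentence of `L_{ω₁ω}`
-/

namespace Pool.Agent.L7h71.GD

open Set Function MeasureTheory
open Pool.Agent.L7h66.UA (XS XIso XYo XDich)
open Pool.Agent.L7h71.GB (FamG Gd GYo Emb Pr Mat Sub qtf FamM append_comp' qtf_eq gd_iff
  analytic_inter)
open Pool.Agent.L7h71.UA (QT qt continuous_qt qt_of append_comp)

/-- `b` is the smallest set with the property `P` which contains `y`. -/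
def Principal (P : Finset ℕ → Prop) (b : Finset ℕ) (y : ℕ) : Prop :=
  P b ∧ y ∈ b ∧ ∀ c, P c → y ∈ c → b ⊆ c

/-- Unions and nonempty intersections of sets with the property `P` have the property `P`, and each point is
in a maximal one among the principal sets. -/
structure TameP (P : Finset ℕ → Prop) : Prop where
  union : ∀ b c, P b → P c → P (b ∪ c)
  inter : ∀ b c, P b → P c → (b ∩ c).Nonempty → P (b ∩ c)
  top : ∀ x, ∃ b, x ∈ b ∧ (∃ y, Principal P b y) ∧ ∀ c z, Principal P c z → b ⊆ c → c ⊆ b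

theorem FineM.of {a : ℕ → ℕ} {K : ℕ → Type} {𝓖 : FamG a K} {M : XS a K ℕ}
    (h : TameP (Gd 𝓖 M)) : FineM 𝓖 M := ⟨h.union, h.inter, h.top⟩

/-- It suffices that each point is in a set with the property `P` with at most `n` points. -/
theorem TameP.of_bdd {P : Finset ℕ → Prop} (h1 : ∀ b c, P b → P c → P (b ∪ c))
    (h2 : ∀ b c, P b → P c → (b ∩ c).Nonempty → P (b ∩ c))
    (h3 : ∃ n : ℕ, ∀ x, ∃ b, P b ∧ x ∈ b ∧ b.card ≤ n) : TameP P := by
  classical
  obtain ⟨n, hn⟩ := h3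
  have hpr : ∀ y, ∃ b, Principal P b y ∧ b.card ≤ n := by
    intro y
    have hne : ∃ k, ∃ b, P b ∧ y ∈ b ∧ b.card = k := by
      obtain ⟨b, hb1, hb2, -⟩ := hn y
      exact ⟨_, b, hb1, hb2, rfl⟩
    obtain ⟨b, hb1, hb2, hb3⟩ := Nat.find_spec hne
    have hle : ∀ c, P c → y ∈ c → b.card ≤ c.card := fun c hc hy => by
      rw [hb3]
      exact Nat.find_min' hne ⟨c, hc, hy, rfl⟩
    refine ⟨b, ⟨hb1, hb2, fun c hc hy => ?_⟩, ?_⟩
    · have h4 := h2 b c hb1 hc ⟨y, Finset.mem_inter.2 ⟨hb2, hy⟩⟩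
      have h5 := hle _ h4 (Finset.mem_inter.2 ⟨hb2, hy⟩)
      have h6 : b ∩ c = b := Finset.eq_of_subset_of_card_le Finset.inter_subset_left h5
      exact Finset.inter_eq_left.1 h6
    · obtain ⟨c, hc1, hc2, hc3⟩ := hn y
      exact (hle c hc1 hc2).trans hc3
  refine ⟨h1, h2, fun x => ?_⟩
  have hbd : ∀ c z, Principal P c z → c.card ≤ n := by
    intro c z hc
    obtain ⟨b, hb, hb'⟩ := hpr z
    exact (Finset.card_le_card (hc.2.2 b hb.1 hb.2.1)).trans hb'
  have hex : ∃ k, ∃ b, x ∈ b ∧ (∃ y, Principal P b y) ∧ n - b.card = k := by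
    obtain ⟨b, hb, -⟩ := hpr x
    exact ⟨_, b, hb.2.1, ⟨x, hb⟩, rfl⟩
  obtain ⟨b, hxb, ⟨y, hy⟩, hk⟩ := Nat.find_spec hex
  refine ⟨b, hxb, ⟨y, hy⟩, fun c z hc hbc => ?_⟩
  have h7 : Nat.find hex ≤ n - c.card := Nat.find_min' hex ⟨c, hbc hxb, ⟨z, hc⟩, rfl⟩
  have h8 := hbd c z hc
  have h9 := hbd b y hy
  have h10 : c.card ≤ b.card := by omega
  exact (Finset.eq_of_subset_of_card_le hbc h10).ge

variable {a : ℕ → ℕ} {K : ℕ → Type}

/-- The dichotomy for `Π₂ ∧ Σ₂` sentences. -/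
theorem pi_sigma (hG : S_GBM) (a : ℕ → ℕ) (K : ℕ → Type) [∀ i, TopologicalSpace (K i)]
    [∀ i, PolishSpace (K i)] (p : ℕ → ℕ) (q : ℕ → ℕ → ℕ) (Ψ : Mat a K p q)
    (hΨ : ∀ i j, @MeasurableSet _ (borel (QT a K (p i + q i j))) (Ψ i j))
    (k : ℕ → ℕ) (l : ℕ → ℕ → ℕ)
    (Q : ∀ i j, Set (QT a K (k i + l i j))) (hQ : ∀ i j, AnalyticSet (Q i j))
    (hfine : ∀ M : XS a K ℕ, Sub p q Ψ M univ →
      (∃ (i : ℕ) (u : Fin (k i) → ℕ), ∀ (j : ℕ) (v : Fin (l i j) → ℕ),
        qt M (Fin.append u v) ∈ Q i j) →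
      TameP fun b : Finset ℕ => Sub p q Ψ M b) :
    XDich {M : XS a K ℕ | Sub p q Ψ M univ ∧
      ∃ (i : ℕ) (u : Fin (k i) → ℕ), ∀ (j : ℕ) (v : Fin (l i j) → ℕ),
        qt M (Fin.append u v) ∈ Q i j} := by
  classical
  let _ : ∀ i, MeasurableSpace (K i) := fun i => borel (K i)
  have hb : ∀ i, BorelSpace (K i) := fun i => ⟨rfl⟩
  have i5 : ∀ i, BorelSpace ((Fin (a i) → ℕ) → K i) := fun i => inferInstance
  have i6 : ∀ i, SecondCountableTopology ((Fin (a i) → ℕ) → K i) := fun i => inferInstance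
  have i7 : BorelSpace (XS a K ℕ) := inferInstanceAs (BorelSpace (∀ i, (Fin (a i) → ℕ) → K i))
  have i4 : ∀ i, TopologicalSpace.IsCompletelyMetrizableSpace ((Fin (a i) → ℕ) → K i) :=
    fun i => inferInstance
  have i8 : TopologicalSpace.IsCompletelyMetrizableSpace (XS a K ℕ) :=
    inferInstanceAs (TopologicalSpace.IsCompletelyMetrizableSpace (∀ i, (Fin (a i) → ℕ) → K i))
  have i9 : SecondCountableTopology (XS a K ℕ) :=
    inferInstanceAs (SecondCountableTopology (∀ i, (Fin (a i) → ℕ) → K i))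
  have i10 : PolishSpace (XS a K ℕ) := {}
  have hm1 : ∀ (m : ℕ) (x : Fin m → ℕ),
      @Measurable _ _ _ (borel (QT a K m)) fun M : XS a K ℕ => qt M x := by
    intro m x
    let _ : MeasurableSpace (QT a K m) := borel _
    have : BorelSpace (QT a K m) := ⟨rfl⟩
    exact (continuous_qt x).measurable
  have hm2 : ∀ (n m : ℕ) (x : Fin m → Fin n),
      @Measurable _ _ _ (borel (QT a K m)) fun s : (∀ i, (Fin (a i) → Fin n) → K i) => qtf s x := by
    intro n m x
    let _ : MeasurableSpace (QT a K m) := borel _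
    have : BorelSpace (QT a K m) := ⟨rfl⟩
    have h5 : ∀ i, BorelSpace ((Fin (a i) → Fin n) → K i) := fun i => inferInstance
    have h6 : ∀ i, SecondCountableTopology ((Fin (a i) → Fin n) → K i) := fun i => inferInstance
    have h7 : BorelSpace (∀ i, (Fin (a i) → Fin n) → K i) := inferInstance
    have hc : Continuous fun s : (∀ i, (Fin (a i) → Fin n) → K i) => qtf s x :=
      (continuous_pi fun i => continuous_pi fun t => (continuous_apply (x ∘ t)).comp
        (continuous_apply i)).prodMk continuous_const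
    exact hc.measurable
  have h𝓖 : ∀ n, MeasurableSet (FamM p q Ψ n) := by
    intro n
    have h1 : FamM p q Ψ n = ⋂ (i : ℕ), ⋂ (x : Fin (p i) → Fin n), ⋃ (j : ℕ),
        ⋃ (y : Fin (q i j) → Fin n), (fun s => qtf s (Fin.append x y)) ⁻¹' Ψ i j := by
      ext s
      simp only [mem_iInter, mem_iUnion, mem_preimage]
      exact Iff.rfl
    rw [h1]
    refine MeasurableSet.iInter fun i => MeasurableSet.iInter fun x => MeasurableSet.iUnion fun j =>
      MeasurableSet.iUnion fun y => ?_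
    exact @hm2 n _ (Fin.append x y) _ (hΨ i j)
  refine hG a K (FamM p q Ψ) h𝓖 _ ?_ ?_ ?_ ?_
  · have h1 : {M : XS a K ℕ | Sub p q Ψ M univ ∧
        ∃ (i : ℕ) (u : Fin (k i) → ℕ), ∀ (j : ℕ) (v : Fin (l i j) → ℕ),
          qt M (Fin.append u v) ∈ Q i j} =
        {M | Sub p q Ψ M univ} ∩ ⋃ (r : Σ i, Fin (k i) → ℕ), ⋂ (w : Σ j, Fin (l r.1 j) → ℕ),
            (fun M : XS a K ℕ => qt M (Fin.append r.2 w.2)) ⁻¹' Q r.1 w.1 := by
      ext M
      simp only [mem_inter_iff, mem_iUnion, mem_iInter, mem_preimage]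
      exact ⟨fun ⟨h, i, u, h'⟩ => ⟨h, ⟨i, u⟩, fun w => h' w.1 w.2⟩,
        fun ⟨h, r, h'⟩ => ⟨h, r.1, r.2, fun j v => h' ⟨j, v⟩⟩⟩
    rw [h1]
    have h2 : MeasurableSet {M : XS a K ℕ | Sub p q Ψ M univ} := by
      have h3 : {M : XS a K ℕ | Sub p q Ψ M univ} = ⋂ (i : ℕ), ⋂ (x : Fin (p i) → ℕ), ⋃ (j : ℕ),
          ⋃ (y : Fin (q i j) → ℕ), (fun M => qt M (Fin.append x y)) ⁻¹' Ψ i j := by
        ext M
        simp only [mem_iInter, mem_iUnion, mem_preimage]
        constructor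
        · intro h i x
          obtain ⟨j, y, -, hy⟩ := h i x fun c => mem_univ _
          exact ⟨j, y, hy⟩
        · intro h i x _
          obtain ⟨j, y, hy⟩ := h i x
          exact ⟨j, y, fun c => mem_univ _, hy⟩
      rw [h3]
      refine MeasurableSet.iInter fun i => MeasurableSet.iInter fun x => MeasurableSet.iUnion
        fun j => MeasurableSet.iUnion fun y => ?_
      exact @hm1 _ (Fin.append x y) _ (hΨ i j)
    refine analytic_inter h2.analyticSet (AnalyticSet.iUnion fun r => ?_)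
    by_cases hne : Nonempty (Σ j, Fin (l r.1 j) → ℕ)
    · refine AnalyticSet.iInter fun w => ?_
      exact (hQ r.1 w.1).preimage (continuous_qt _)
    · exact absurd ⟨⟨0, fun _ => 0⟩⟩ hne
  · rintro M ⟨h, i, u, h'⟩ N ⟨e, he⟩
    have key : ∀ {m : ℕ} (x : Fin m → ℕ), qt N (e ∘ x) = qt M x := fun x =>
      qt_of e.injective.injOn fun i' x _ => he i' x
    refine ⟨fun i x _ => ?_, i, e ∘ u, fun j v => ?_⟩
    · obtain ⟨j, y, -, hy⟩ := h i (e.symm ∘ x) fun c => mem_univ _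
      refine ⟨j, e ∘ y, fun c => mem_univ _, ?_⟩
      rw [← key, append_comp'] at hy
      have h2 : (⇑e ∘ ⇑e.symm ∘ x) = x := by
        funext c
        exact e.apply_symm_apply _
      rwa [h2] at hy
    · have h2 := h' j (e.symm ∘ v)
      rw [← key, append_comp'] at h2
      have h3 : (⇑e ∘ ⇑e.symm ∘ v) = v := by
        funext c
        exact e.apply_symm_apply _
      rwa [h3] at h2
  · rintro M ⟨h, h'⟩
    refine FineM.of ?_
    have h1 : (fun b : Finset ℕ => Gd (FamM p q Ψ) M b) = fun b : Finset ℕ => Sub p q Ψ M b :=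
      funext fun b => propext (gd_iff p q Ψ M b)
    show TameP (fun b : Finset ℕ => Gd (FamM p q Ψ) M b)
    rw [h1]
    exact hfine M h h'
  · rintro M ⟨-, i, u, h'⟩
    refine ⟨Finset.univ.image u, fun N hN => ⟨fun i' x _ => ?_, i, u, fun j v => ?_⟩⟩
    · obtain ⟨X', h1, -, h3, -⟩ := hN (Finset.univ.image x)
      obtain ⟨j, y, -, hy⟩ := (gd_iff p q Ψ N _).1 h3 i' x fun c =>
        Finset.mem_coe.2 (h1 (Finset.mem_image_of_mem _ (Finset.mem_univ c)))
      exact ⟨j, y, fun c => mem_univ _, hy⟩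
    · obtain ⟨X', h1, h2, -, e, h3, h4⟩ := hN (Finset.univ.image (Fin.append u v))
      have hsub : range (Fin.append u v) ⊆ (X' : Set ℕ) := by
        rintro _ ⟨c, rfl⟩
        exact Finset.mem_coe.2 (h1 (Finset.mem_image_of_mem _ (Finset.mem_univ c)))
      have h5 : qt M (e ∘ Fin.append u v) = qt N (Fin.append u v) :=
        qt_of (h4.1.mono hsub) fun i' x hx => h4.2 i' x fun j' => hsub (hx j')
      rw [← h5, append_comp]
      have h6 : e ∘ u = u := funext fun c => h3 _ (Finset.mem_image_of_mem _ (Finset.mem_univ c))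
      rw [h6]
      exact h' j _


end Pool.Agent.L7h71.GD
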