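import Pool.Agent.L7h71.GC.Bas

set_option autoImplicit false

/-!
# Project GD: the projects GB and GC without bounds

In GB the condition that each point is in a good set with at most `n` points is replaced by: each point is in
a maximal prime good set (so the blocks are finite, but of any size). In GC the number of generators of the maximal 1-generated
substructures is only finite, not bounded. Every part is a small change of a proof in GB or GC.

Files `Pool/Agent/<folder>/GD/Xxx.lean`, theorems `s_XXX`.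
-/

namespace Pool.Agent.L7h71.GD

open Set Function MeasureTheory FirstOrder FirstOrder.Language
open Pool.Agent.L7h66.UA (XS XIso XYo XDich)
open Pool.Agent.L7h71.UN (IsEU)
open Pool.Agent.L7h71.GB (pt FamG Gd GYo Emb Pr)
open Pool.Agent.L7h71.GC (Gen G1 TopP FGs Enum cod Pres GG CS)
open Pool.Agent.W889.FO (VaughtF)

/-- The conditions for `M`: unions and nonempty intersections of good sets are good, and each point is in a
maximal one among the prime good sets. -/
structure FineM {a : ℕ → ℕ} {K : ℕ → Type} (𝓖 : FamG a K) (M : XS a K ℕ) : Prop where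
  union : ∀ b c, Gd 𝓖 M b → Gd 𝓖 M c → Gd 𝓖 M (b ∪ c)
  inter : ∀ b c, Gd 𝓖 M b → Gd 𝓖 M c → (b ∩ c).Nonempty → Gd 𝓖 M (b ∩ c)
  top : ∀ x, ∃ b, x ∈ b ∧ (∃ y, Pr 𝓖 M b y) ∧ ∀ c z, Pr 𝓖 M c z → b ⊆ c → c ⊆ b

/-- CEM (80 lines, no hypotheses): `Pool.Agent.L7h76.GB.s_CEX` for `FineM`. The set of the maximal prime sets is a
countable set of finite sets with union `ℕ` (`top`), hence infinite; enumerate it. -/
def S_CEM : Prop :=
  ∀ (a : ℕ → ℕ) (K : ℕ → Type) (𝓖 : FamG a K) (M : XS a K ℕ), FineM 𝓖 M →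
    ∃ ρ, Pool.Agent.L7h71.GB.Pres 𝓖 M ρ

/-- GBM (assembly, helper71): GBT for `FineM`. -/
def S_GBM : Prop :=
  ∀ (a : ℕ → ℕ) (K : ℕ → Type) [∀ i, TopologicalSpace (K i)] [∀ i, PolishSpace (K i)]
    [∀ i, MeasurableSpace (K i)] [∀ i, BorelSpace (K i)]
    (𝓖 : FamG a K), (∀ n, MeasurableSet (𝓖 n)) → ∀ B : Set (XS a K ℕ), AnalyticSet B →
    (∀ M ∈ B, ∀ N, XIso M N → N ∈ B) → (∀ M ∈ B, FineM 𝓖 M) →
    (∀ M ∈ B, ∃ F : Finset ℕ, ∀ N, GYo 𝓖 F M N → N ∈ B) → XDich B

/-- The conditions for `S`: unions of substructures are substructures, and each point lies in a maximal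
1-generated substructure which has finitely many generators. -/
structure DisF {L : FirstOrder.Language.{0, 0}} (S : L.Structure ℕ) : Prop where
  union : ∀ (v : ℕ → ℕ) p, Gen S v p → ∃ i, G1 S (v i) p
  top : ∀ x, ∃ y, G1 S y x ∧ TopP S y ∧ {z | G1 S y z ∧ G1 S z y}.Finite

/-- FNM (80 lines): `Pool.Agent.L7h96.GC.s_FNC` for `DisF`, `FineM`. The block of a top point is finite (take `y` as in `top`; as `ρ i` is top, `y` is in
its block); the prime good sets of the code are the preimages of the blocks, so they are all maximal. -/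
def S_FNM : Prop :=
  ∀ (L : FirstOrder.Language.{0, 0}), Countable L.Symbols → ∀ (E : ℕ → L.Formula ℕ), Enum E →
    ∀ (S : L.Structure ℕ) (ρ : ℕ → ℕ), DisF S → Pres S ρ → FineM (GG E) (cod E S ρ)

/-- YCM: `Pool.Agent.L7h76.GC.s_YCC` for `DisF`. Only (f) changes: the block of `x₁ i` in `S₁` is contained in the finite set of the `x₁ j`, `j ∈ X'`, where `X'` is a
good set of `N₁` with `i ∈ X'` (GDC). -/
def S_YCM : Prop :=
  ∀ (L : FirstOrder.Language.{0, 0}), Countable L.Symbols → ∀ (E : ℕ → L.Formula ℕ), Enum E →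
    ∀ (T : L.Theory), (∀ φ ∈ T, IsEU φ) → {φ ∈ T | ¬ φ.IsUniversal}.Finite →
    ∀ (S : L.Structure ℕ) (ρ : ℕ → ℕ), @Theory.Model L ℕ S T → DisF S → Pres S ρ →
    ∃ F : Finset ℕ, ∀ N₁ : CS ℕ, GYo (GG E) F (cod E S ρ) N₁ →
      ∃ (S₁ : L.Structure ℕ) (ρ₁ : ℕ → ℕ), @Theory.Model L ℕ S₁ T ∧ ¬ FGs S₁ ∧ Pres S₁ ρ₁ ∧
        cod E S₁ ρ₁ = N₁

/-- EXM: `Pool.Agent.L7h73.GC.s_EXR` for `DisF`. -/
def S_EXM : Prop :=
  ∀ (L : FirstOrder.Language.{0, 0}) (S : L.Structure ℕ), DisF S → ¬ FGs S → ∃ ρ, Pres S ρ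

/-- ISM: `Pool.Agent.L7h44.GC.s_ISO` for `DisF`. -/
def S_ISM : Prop :=
  ∀ (L : FirstOrder.Language.{0, 0}) (E : ℕ → L.Formula ℕ), Enum E →
    ∀ (S S' : L.Structure ℕ) (ρ ρ' : ℕ → ℕ), Pres S ρ → Pres S' ρ' →
      (Nonempty (@FirstOrder.Language.Equiv L ℕ ℕ S S') → XIso (cod E S ρ) (cod E S' ρ')) ∧
      (DisF S → DisF S' → cod E S ρ = cod E S' ρ' →
        Nonempty (@FirstOrder.Language.Equiv L ℕ ℕ S S'))

/-- GCM (assembly, helper71). -/
def S_GCM : Prop :=
  ∀ (L : FirstOrder.Language.{0, 0}), Countable L.Symbols → ∀ (T : L.Theory), (∀ φ ∈ T, IsEU φ) →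
    {φ ∈ T | ¬ φ.IsUniversal}.Finite →
    (∀ S : L.Structure ℕ, @Theory.Model L ℕ S T → ¬ FGs S → DisF S) → VaughtF L T

/-- `S` satisfies the conditions in terms of substructures. -/
def Disg (L : FirstOrder.Language.{0, 0}) [L.Structure ℕ] : Prop :=
  (∀ (A B : L.Substructure ℕ) (x : ℕ), x ∈ A ⊔ B → x ∈ A ∨ x ∈ B) ∧
  ∀ x : ℕ, ∃ y : ℕ, x ∈ Substructure.closure L {y} ∧
    (∀ z : ℕ, Substructure.closure L {y} ≤ Substructure.closure L {z} →
      Substructure.closure L {z} = Substructure.closure L {y}) ∧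
    {z : ℕ | Substructure.closure L {z} = Substructure.closure L {y}}.Finite

/-- TRL (100 lines, no hypotheses). Translation: `G1 S y p ↔ p ∈ closure {y}` (`Substructure.mem_closure_iff_exists_term`); `union` by induction on the term (finite
suprema of the substructures generated by the `v i`); if `⊤` is generated by a finite set `X` then `FGs S` (list `0 :: X.toList`). -/
def S_TRL : Prop :=
  ∀ (L : FirstOrder.Language.{0, 0}) (S : L.Structure ℕ),
    (@Structure.FG L ℕ S → FGs S) ∧ (@Disg L S → DisF S)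

end Pool.Agent.L7h71.GD
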