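import Pool.Agent.L7h71.GC.All
import Pool.Agent.L7h71.GD.Asm1
import Pool.Agent.L7h71.GD.Asm2
import Pool.Agent.L7h71.GD.Sig
import Pool.Agent.L7h71.GD.Foh
import Pool.Agent.L7h71.GD.Fsr
import Pool.Agent.L7h42.GD.Cem
import Pool.Agent.L7h44.GD.Ism
import Pool.Agent.L7h73.GD.Exm
import Pool.Agent.L7h75.GD.Trl
import Pool.Agent.L7h76.GD.Ycm
import Pool.Agent.L7h96.GD.Fnm

set_option autoImplicit false

/-!
# Project GD: all parts together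
-/

namespace Pool.Agent.L7h71.GD

open FirstOrder FirstOrder.Language
open Pool.Agent.L7h71.GB (tau' gdl)

theorem gbm : S_GBM :=
  s_GBM L7h42.GD.s_CEM (L7h76.GB.s_UNI tau' gdl) (L7h96.GB.s_FTH tau')
    (L7h95.GB.s_YNG tau' gdl L7h75.GB.s_LIM L7h42.GB.s_FIX)
    (L7h6.GBV.s_MPR L7h6.GBV.s_MTA gdl)

theorem foh : S_FOH := s_FOH gbm L7h44.GB.s_FOE L7h44.GB.s_FOM

theorem gcm : S_GCM :=
  s_GCM gbm L7h96.GC.s_GDC (L7h96.GD.s_FNM L7h96.GC.s_GDC)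
    (L7h76.GD.s_YCM L7h71.GD.Ult.s_ULT L7h96.GC.s_GDC) L7h73.GD.s_EXM
    (L7h44.GD.s_ISM L7h75.GC.s_GEN) (L7h6.GC.s_MEC L7h42.GC.s_MEB) L7h60.GC.s_DEX
    (L7h42.GC.s_FIN L7h75.GC.s_GEN (L7h6.GC.s_MEC L7h42.GC.s_MEB))

/-- Vaught's conjecture for universal theories with disintegrated models, in terms of substructures. -/
theorem gcs (L : FirstOrder.Language.{0, 0}) (hc : Countable L.Symbols) (T : L.Theory)
    (hT : ∀ φ ∈ T, L7h71.UN.IsEU φ) (hfin : {φ ∈ T | ¬ φ.IsUniversal}.Finite)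
    (h : ∀ S : L.Structure ℕ, @Theory.Model L ℕ S T → ¬ @Structure.FG L ℕ S → @Disg L S) :
    Pool.Agent.W889.FO.VaughtF L T :=
  gcm L hc T hT hfin fun S hS hS' =>
    (L7h75.GD.s_TRL L S).2 (h S hS fun hfg => hS' ((L7h75.GD.s_TRL L S).1 hfg))

end Pool.Agent.L7h71.GD
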